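import Mathlib
import Pool.Agent.Lib.MP_ce24da_an.PartB

/-!
# Existence of maximisers for ratios of Riesz capacities

For every `n` and all real `0 ≤ p < q < n` the ratio `cap_q K / cap_p K` attains its supremum over
the compact sets `K ⊆ ℝⁿ` with `cap_p K > 0`.
-/

open MeasureTheory Set Metric
open scoped ENNReal

namespace Pool.Agent.Results.MP_ce24da_an.RieszRatioMax

variable {n : ℕ}

/-- `𝒫(K)`: the Borel probability measures on `ℝⁿ` carried by `K`. -/
def probOn (K : Set (EuclideanSpace ℝ (Fin n))) : Set (Measure (EuclideanSpace ℝ (Fin n))) :=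
  {μ | IsProbabilityMeasure μ ∧ μ Kᶜ = 0}

/-- The Riesz energy `∬ |x - y|^{-s} dμ(x) dμ(y)` (used for `s > 0`), with values in `[0, ∞]`. -/
noncomputable def rieszEnergy (s : ℝ) (μ : Measure (EuclideanSpace ℝ (Fin n))) : ℝ≥0∞ :=
  ∫⁻ x, ∫⁻ y, (edist x y) ^ (-s) ∂μ ∂μ

/-- The kernel `log (1 / |x - y|)` with values in `[-∞, ∞]`; it is `+∞` for `x = y`. -/
noncomputable def logKernel (x y : EuclideanSpace ℝ (Fin n)) : EReal :=
  ENNReal.log (edist x y)⁻¹

/-- The logarithmic energy `∬ log (1 / |x - y|) dμ(x) dμ(y)`: the integral of the positive part of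
the kernel minus the integral of its negative part. -/
noncomputable def logEnergy (μ : Measure (EuclideanSpace ℝ (Fin n))) : EReal :=
  ((∫⁻ x, ∫⁻ y, (logKernel x y).toENNReal ∂μ ∂μ : ℝ≥0∞) : EReal) -
    ((∫⁻ x, ∫⁻ y, (-logKernel x y).toENNReal ∂μ ∂μ : ℝ≥0∞) : EReal)

/-- `V_s(K)` for `s > 0`. -/
noncomputable def leastRiesz (s : ℝ) (K : Set (EuclideanSpace ℝ (Fin n))) : ℝ≥0∞ :=
  ⨅ μ ∈ probOn K, rieszEnergy s μ

/-- `V_0(K)`. -/
noncomputable def leastLog (K : Set (EuclideanSpace ℝ (Fin n))) : EReal :=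
  ⨅ μ ∈ probOn K, logEnergy μ

/-- The Riesz capacity of order `s ≥ 0`, homogeneous of degree one: `exp (-V_0(K))` for `s = 0` and
`V_s(K)^{-1/s}` for `s > 0` (both are `0` when the least energy is `+∞`). -/
noncomputable def cap (s : ℝ) (K : Set (EuclideanSpace ℝ (Fin n))) : ℝ≥0∞ :=
  if s = 0 then EReal.exp (-leastLog K) else (leastRiesz s K) ^ (-(1 / s))

/-! ### comparison with the auxiliary notions -/

lemma rieszEnergy_eq (s : ℝ) (μ : Measure (EuclideanSpace ℝ (Fin n))) [SFinite μ] :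
    rieszEnergy s μ = RieszRatio.En s μ μ := by
  unfold rieszEnergy RieszRatio.En
  rw [lintegral_prod _ (RieszRatio.measurable_kernel s).aemeasurable]

lemma leastRiesz_eq (s : ℝ) (K : Set (EuclideanSpace ℝ (Fin n))) :
    leastRiesz s K = RieszRatio.VV s K := by
  unfold leastRiesz RieszRatio.VV
  refine iInf_congr fun μ => iInf_congr fun hμ => ?_
  have : IsProbabilityMeasure μ := hμ.1
  exact rieszEnergy_eq s μ

lemma logKernel_self (x : EuclideanSpace ℝ (Fin n)) : logKernel x x = ⊤ := by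
  unfold logKernel
  rw [edist_self, ENNReal.inv_zero, ENNReal.log_top]

lemma logKernel_of_ne {x y : EuclideanSpace ℝ (Fin n)} (h : x ≠ y) :
    logKernel x y = ((-Real.log (dist x y) : ℝ) : EReal) := by
  unfold logKernel
  rw [ENNReal.log_inv, edist_dist, ENNReal.log_ofReal_of_pos (dist_pos.2 h), EReal.coe_neg]

/-- pointwise comparison of the kernels -/
lemma kernel_shift {D : ℝ} (hD : 1 ≤ D) {x y : EuclideanSpace ℝ (Fin n)} (h : dist x y ≤ D) :
    (logKernel x y).toENNReal + ENNReal.ofReal (Real.log D) =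
      RieszRatio.lk D (x, y) + (-logKernel x y).toENNReal := by
  unfold RieszRatio.lk
  by_cases hxy : x = y
  · subst hxy
    rw [if_pos rfl, logKernel_self]
    simp
  · rw [if_neg hxy, logKernel_of_ne hxy, ← EReal.coe_neg, neg_neg,
      EReal.toENNReal_of_ne_top (EReal.coe_ne_top _), EReal.toENNReal_of_ne_top (EReal.coe_ne_top _),
      EReal.toReal_coe, EReal.toReal_coe]
    have hd : 0 < dist x y := dist_pos.2 hxy
    simp only
    rw [Real.log_div (by linarith) hd.ne']
    have hlD : 0 ≤ Real.log D := Real.log_nonneg hD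
    have hdD : Real.log (dist x y) ≤ Real.log D := Real.log_le_log hd h
    rcases le_total (Real.log (dist x y)) 0 with hl | hl
    · rw [ENNReal.ofReal_eq_zero.2 hl, add_zero, ← ENNReal.ofReal_add (by linarith) hlD]
      congr 1
      ring
    · rw [ENNReal.ofReal_eq_zero.2 (show -Real.log (dist x y) ≤ 0 by linarith), zero_add,
        ← ENNReal.ofReal_add (by linarith) hl]
      congr 1
      ring

lemma neg_kernel_le {D : ℝ} {x y : EuclideanSpace ℝ (Fin n)} (h : dist x y ≤ D) :
    (-logKernel x y).toENNReal ≤ ENNReal.ofReal (Real.log D) := by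
  by_cases hxy : x = y
  · subst hxy
    rw [logKernel_self]
    simp
  · rw [logKernel_of_ne hxy, ← EReal.coe_neg, neg_neg,
      EReal.toENNReal_of_ne_top (EReal.coe_ne_top _), EReal.toReal_coe]
    exact ENNReal.ofReal_le_ofReal (Real.log_le_log (dist_pos.2 hxy) h)

lemma measurable_logKernel :
    Measurable (fun z : EuclideanSpace ℝ (Fin n) × EuclideanSpace ℝ (Fin n) => logKernel z.1 z.2) := by
  unfold logKernel
  exact (measurable_edist.inv).ennreal_log

/-- the logarithmic energy in terms of the shifted kernel -/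
lemma logEnergy_add {T : ℝ} (hT : 1 ≤ 2 * T) {μ : Measure (EuclideanSpace ℝ (Fin n))}
    [IsProbabilityMeasure μ] (hμ : μ (closedBall 0 T)ᶜ = 0) :
    logEnergy μ + (Real.log (2 * T) : EReal) = ((RieszRatio.LE (2 * T) μ μ : ℝ≥0∞) : EReal) := by
  have hlD : 0 ≤ Real.log (2 * T) := Real.log_nonneg hT
  have hm1 : Measurable (fun z : EuclideanSpace ℝ (Fin n) × EuclideanSpace ℝ (Fin n) =>
      (logKernel z.1 z.2).toENNReal) := measurable_logKernel.ereal_toENNReal
  have hm2 : Measurable (fun z : EuclideanSpace ℝ (Fin n) × EuclideanSpace ℝ (Fin n) =>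
      (-logKernel z.1 z.2).toENNReal) := measurable_logKernel.neg.ereal_toENNReal
  have e1 : ∫⁻ x, ∫⁻ y, (logKernel x y).toENNReal ∂μ ∂μ =
      ∫⁻ z, (logKernel z.1 z.2).toENNReal ∂(μ.prod μ) := (lintegral_prod _ hm1.aemeasurable).symm
  have e2 : ∫⁻ x, ∫⁻ y, (-logKernel x y).toENNReal ∂μ ∂μ =
      ∫⁻ z, (-logKernel z.1 z.2).toENNReal ∂(μ.prod μ) := (lintegral_prod _ hm2.aemeasurable).symm
  unfold logEnergy
  rw [e1, e2]
  set A := ∫⁻ z, (logKernel z.1 z.2).toENNReal ∂(μ.prod μ) with hA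
  set B := ∫⁻ z, (-logKernel z.1 z.2).toENNReal ∂(μ.prod μ) with hB
  have hAB : A + ENNReal.ofReal (Real.log (2 * T)) = RieszRatio.LE (2 * T) μ μ + B := by
    have e : ENNReal.ofReal (Real.log (2 * T)) =
        ∫⁻ _ : EuclideanSpace ℝ (Fin n) × EuclideanSpace ℝ (Fin n),
          ENNReal.ofReal (Real.log (2 * T)) ∂(μ.prod μ) := by simp
    unfold RieszRatio.LE
    rw [e, hA, hB, ← lintegral_add_right _ measurable_const, ← lintegral_add_right _ hm2]
    apply lintegral_congr_ae
    filter_upwards [RieszRatio.ae_prod_mem hμ hμ] with z hz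
    exact kernel_shift hT (RieszRatio.dist_le_of_mem_closedBall hz.1 hz.2)
  have hBle : B ≤ ENNReal.ofReal (Real.log (2 * T)) := by
    calc B ≤ ∫⁻ _, ENNReal.ofReal (Real.log (2 * T)) ∂(μ.prod μ) := by
          apply lintegral_mono_ae
          filter_upwards [RieszRatio.ae_prod_mem hμ hμ] with z hz
          exact neg_kernel_le (RieszRatio.dist_le_of_mem_closedBall hz.1 hz.2)
      _ = _ := by simp
  have hBfin : B ≠ ∞ := (hBle.trans_lt ENNReal.ofReal_lt_top).ne
  by_cases hAtop : A = ∞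
  · have hL : RieszRatio.LE (2 * T) μ μ = ∞ := by
      rw [hAtop, top_add] at hAB
      by_contra hne
      exact (ENNReal.add_ne_top.2 ⟨hne, hBfin⟩) hAB.symm
    rw [hL, hAtop, ← EReal.coe_toReal (x := (B : EReal)) (by simpa using hBfin)
      (EReal.coe_ennreal_ne_bot _), EReal.coe_ennreal_top, EReal.top_sub_coe, EReal.top_add_coe]
  · have hL : RieszRatio.LE (2 * T) μ μ ≠ ∞ := by
      intro hL
      rw [hL, top_add] at hAB
      exact (ENNReal.add_ne_top.2 ⟨hAtop, ENNReal.ofReal_ne_top⟩) hAB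
    have h1 := congrArg ENNReal.toReal hAB
    rw [ENNReal.toReal_add hAtop ENNReal.ofReal_ne_top, ENNReal.toReal_add hL hBfin,
      ENNReal.toReal_ofReal hlD] at h1
    rw [← EReal.coe_toReal (x := (A : EReal)) (by simpa using hAtop) (EReal.coe_ennreal_ne_bot _),
      ← EReal.coe_toReal (x := (B : EReal)) (by simpa using hBfin) (EReal.coe_ennreal_ne_bot _),
      ← EReal.coe_toReal (x := ((RieszRatio.LE (2 * T) μ μ : ℝ≥0∞) : EReal)) (by simpa using hL)
        (EReal.coe_ennreal_ne_bot _)]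
    simp only [EReal.toReal_coe_ennreal]
    rw [← EReal.coe_sub, ← EReal.coe_add]
    congr 1
    linarith

/-! ### the case `p > 0` -/

lemma result_pos [NeZero n] {p q : ℝ} (hp : 0 < p) (hpq : p < q) (hqn : q < n) :
    ∃ K₀ : Set (EuclideanSpace ℝ (Fin n)), IsCompact K₀ ∧ 0 < cap p K₀ ∧
      ∀ K : Set (EuclideanSpace ℝ (Fin n)), IsCompact K → 0 < cap p K →
        cap q K / cap p K ≤ cap q K₀ / cap p K₀ := by
  have hq : 0 < q := hp.trans hpq
  obtain ⟨Θ, hΘ, -, H, μ, hμ⟩ := RieszRatio.partA (n := n) hp hpq hqn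
  have hcap : ∀ K : Set (EuclideanSpace ℝ (Fin n)), cap p K = (RieszRatio.VV p K) ^ (-(1 / p)) := by
    intro K
    unfold cap
    rw [if_neg hp.ne', leastRiesz_eq]
  have hcaq : ∀ K : Set (EuclideanSpace ℝ (Fin n)), cap q K = (RieszRatio.VV q K) ^ (-(1 / q)) := by
    intro K
    unfold cap
    rw [if_neg hq.ne', leastRiesz_eq]
  set K₀ := (μ : Measure (EuclideanSpace ℝ (Fin n))).support with hK₀
  have hVq : RieszRatio.VV q K₀ = 1 := hμ.one
  have hVp : ENNReal.ofReal Θ ≤ RieszRatio.VV p K₀ := by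
    have := hμ.near
    rwa [ENNReal.ofReal_zero, add_zero] at this
  have hVp' : RieszRatio.VV p K₀ ≠ ∞ := by
    have h1 := H K₀ hμ.compact (by rw [hVq]; exact ENNReal.one_ne_top)
    rw [hVq, ENNReal.one_rpow, mul_one] at h1
    exact (h1.trans_lt ENNReal.ofReal_lt_top).ne
  have hinv : (0:ℝ) < 1 / p := by positivity
  -- lower bound for the ratio at `K₀`
  have hlow : (ENNReal.ofReal Θ) ^ (1 / p) ≤ cap q K₀ / cap p K₀ := by
    rw [hcap, hcaq, hVq, ENNReal.one_rpow, ENNReal.rpow_neg, one_div (_⁻¹ : ℝ≥0∞), inv_inv]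
    gcongr
  refine ⟨K₀, hμ.compact, ?_, fun K hK _ => le_trans ?_ hlow⟩
  · rw [hcap]
    refine ENNReal.rpow_pos ?_ hVp'
    exact (ENNReal.ofReal_pos.2 hΘ).trans_le hVp
  · by_cases hv : RieszRatio.VV q K = ∞
    · rw [hcaq, hv, ENNReal.top_rpow_of_neg (by have : 0 < 1 / q := by positivity
                                                linarith), ENNReal.zero_div]
      exact zero_le
    · have hv0 : RieszRatio.VV q K ≠ 0 := RieszRatio.VV_pos hq hK
      have hw0 : (RieszRatio.VV q K) ^ (1 / q) ≠ 0 := (ENNReal.rpow_pos (pos_iff_ne_zero.2 hv0) hv).ne'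
      have hwt : (RieszRatio.VV q K) ^ (1 / q) ≠ ∞ :=
        ENNReal.rpow_ne_top_of_nonneg (by positivity) hv
      have h1 := H K hK hv
      rw [hcap, hcaq, ENNReal.rpow_neg, ENNReal.rpow_neg, div_eq_mul_inv, inv_inv]
      calc ((RieszRatio.VV q K) ^ (1 / q))⁻¹ * (RieszRatio.VV p K) ^ (1 / p)
          ≤ ((RieszRatio.VV q K) ^ (1 / q))⁻¹ *
            (ENNReal.ofReal Θ * (RieszRatio.VV q K) ^ (p / q)) ^ (1 / p) := by gcongr
        _ = ((RieszRatio.VV q K) ^ (1 / q))⁻¹ *
            ((ENNReal.ofReal Θ) ^ (1 / p) * (RieszRatio.VV q K) ^ (1 / q)) := by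
            rw [ENNReal.mul_rpow_of_nonneg _ _ hinv.le, ← ENNReal.rpow_mul]
            congr 3
            field_simp
        _ = (ENNReal.ofReal Θ) ^ (1 / p) := by
            rw [mul_comm (ENNReal.ofReal Θ ^ (1 / p)), ← mul_assoc, ENNReal.inv_mul_cancel hw0 hwt,
              one_mul]

/-! ### the case `p = 0` -/

lemma result_zero [NeZero n] {q : ℝ} (hq : 0 < q) (hqn : q < n) :
    ∃ K₀ : Set (EuclideanSpace ℝ (Fin n)), IsCompact K₀ ∧ 0 < cap 0 K₀ ∧
      ∀ K : Set (EuclideanSpace ℝ (Fin n)), IsCompact K → 0 < cap 0 K →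
        cap q K / cap 0 K ≤ cap q K₀ / cap 0 K₀ := by
  obtain ⟨ℓ, T, μ, hT, hb, hμ, hK₀, hKT, hE, hlow, hup⟩ := RieszRatio.partB (n := n) hq hqn
  have hcap : ∀ K : Set (EuclideanSpace ℝ (Fin n)), cap 0 K = EReal.exp (-leastLog K) := by
    intro K
    unfold cap
    rw [if_pos rfl]
  have hcaq : ∀ K : Set (EuclideanSpace ℝ (Fin n)), cap q K = (RieszRatio.VV q K) ^ (-(1 / q)) := by
    intro K
    unfold cap
    rw [if_neg hq.ne', leastRiesz_eq]
  set K₀ := μ.support with hK₀def
  have hqinv : 0 < 1 / q := by positivity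
  -- the energy of `K₀`
  have hV0 : (ℓ : EReal) ≤ leastLog K₀ := by
    unfold leastLog
    refine le_iInf₂ fun σ hσ => ?_
    have : IsProbabilityMeasure σ := hσ.1
    have hσT : σ (closedBall 0 T)ᶜ = 0 := measure_mono_null (compl_subset_compl.2 hKT) hσ.2
    have h1 := logEnergy_add (by linarith) hσT
    have h2 := hlow σ hσ
    have h3 : ((ℓ + Real.log (2 * T) : ℝ) : EReal) ≤ logEnergy σ + (Real.log (2 * T) : EReal) := by
      rw [h1]
      have := EReal.coe_ennreal_le_coe_ennreal_iff.2 h2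
      rwa [EReal.coe_ennreal_ofReal, max_eq_left hb] at this
    rw [EReal.coe_add] at h3
    exact (EReal.addLECancellable_coe _).add_le_add_iff_right.1 h3
  have hfin : leastLog K₀ < ⊤ := by
    have : IsProbabilityMeasure μ := hμ.1
    have hμT : μ (closedBall 0 T)ᶜ = 0 := measure_mono_null (compl_subset_compl.2 hKT) hμ.2
    have h1 := logEnergy_add (by linarith) hμT
    have h2 := RieszRatio.LE_le_En (by linarith : 0 < T) hq hμT hμT
    have h3 : RieszRatio.LE (2 * T) μ μ ≠ ∞ := by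
      intro htop
      rw [htop, ENNReal.mul_top (by simpa using hq), top_add, top_le_iff] at h2
      exact (ENNReal.mul_ne_top ENNReal.ofReal_ne_top (hE.trans_lt ENNReal.one_lt_top).ne) h2
    refine lt_of_le_of_lt (iInf₂_le μ hμ) ?_
    rw [lt_top_iff_ne_top]
    intro htop
    rw [htop, EReal.top_add_coe] at h1
    exact h3 (EReal.coe_ennreal_eq_top_iff.1 h1.symm)
  -- lower bound for the ratio at `K₀`
  have hlow' : ENNReal.ofReal (Real.exp ℓ) ≤ cap q K₀ / cap 0 K₀ := by
    have h1 : (1 : ℝ≥0∞) ≤ cap q K₀ := by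
      rw [hcaq, ENNReal.rpow_neg]
      rw [ENNReal.one_le_inv]
      have h2 : RieszRatio.VV q K₀ ≤ 1 := (RieszRatio.VV_le hμ).trans hE
      calc (RieszRatio.VV q K₀) ^ (1 / q) ≤ 1 ^ (1 / q) := by gcongr
        _ = 1 := ENNReal.one_rpow _
    have h2 : cap 0 K₀ ≤ ENNReal.ofReal (Real.exp (-ℓ)) := by
      rw [hcap, ← EReal.exp_coe, EReal.exp_le_exp_iff, EReal.coe_neg]
      exact EReal.neg_le_neg_iff.2 hV0
    calc ENNReal.ofReal (Real.exp ℓ) = 1 / ENNReal.ofReal (Real.exp (-ℓ)) := by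
          rw [one_div, ← ENNReal.ofReal_inv_of_pos (Real.exp_pos _), Real.exp_neg, inv_inv]
      _ ≤ cap q K₀ / cap 0 K₀ := ENNReal.div_le_div h1 h2
  refine ⟨K₀, hK₀, ?_, fun K hK hpos => le_trans ?_ hlow'⟩
  · rw [hcap, EReal.zero_lt_exp_iff, bot_lt_iff_ne_bot]
    intro h
    rw [EReal.neg_eq_bot_iff] at h
    exact hfin.ne h
  · by_cases hv : RieszRatio.VV q K = ∞
    · rw [hcaq, hv, ENNReal.top_rpow_of_neg (by linarith), ENNReal.zero_div]
      exact zero_le
    · have hv0 : 0 < (RieszRatio.VV q K).toReal := ENNReal.toReal_pos (RieszRatio.VV_pos hq hK) hv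
      set v := (RieszRatio.VV q K).toReal with hvdef
      have hvE : RieszRatio.VV q K = ENNReal.ofReal v := (ENNReal.ofReal_toReal hv).symm
      -- a large ball
      obtain ⟨T₀, hT₀⟩ := hK.isBounded.subset_closedBall (0 : EuclideanSpace ℝ (Fin n))
      set T' := max T₀ 1 with hT'
      have hT'1 : 1 ≤ T' := le_max_right _ _
      have hKT' : K ⊆ closedBall 0 T' := hT₀.trans (closedBall_subset_closedBall (le_max_left _ _))
      obtain ⟨hc0, hcle⟩ := hup K hK hv T' (by linarith) hKT'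
      set c := ℓ + Real.log (2 * T') + Real.log v / q with hc
      have hVK : leastLog K ≤ ((ℓ + Real.log v / q : ℝ) : EReal) := by
        set X := leastLog K + (Real.log (2 * T') : EReal) with hX
        have h1 : X.toENNReal ≤ ⨅ σ ∈ RieszRatio.PP K, RieszRatio.LE (2 * T') σ σ := by
          refine le_iInf₂ fun σ hσ => ?_
          have : IsProbabilityMeasure σ := hσ.1
          have hσT : σ (closedBall 0 T')ᶜ = 0 :=
            measure_mono_null (compl_subset_compl.2 hKT') hσ.2
          have h1 := logEnergy_add (by linarith) hσT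
          have h2 : X ≤ ((RieszRatio.LE (2 * T') σ σ : ℝ≥0∞) : EReal) := by
            rw [← h1, hX]
            gcongr
            exact iInf₂_le σ hσ
          have h3 := EReal.toENNReal_le_toENNReal h2
          rwa [EReal.toENNReal_coe] at h3
        have h2 : X ≤ ((c : ℝ) : EReal) := by
          have h3 := EReal.coe_ennreal_le_coe_ennreal_iff.2 (h1.trans hcle)
          rw [EReal.coe_ennreal_ofReal, max_eq_left hc0] at h3
          refine le_trans ?_ h3
          rw [EReal.coe_toENNReal_eq_max]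
          exact le_max_right _ _
        have h4 : ((c : ℝ) : EReal) =
            ((ℓ + Real.log v / q : ℝ) : EReal) + (Real.log (2 * T') : EReal) := by
          rw [← EReal.coe_add]
          congr 1
          rw [hc]
          ring
        rw [h4, hX] at h2
        exact (EReal.addLECancellable_coe _).add_le_add_iff_right.1 h2
      have hcapK : ENNReal.ofReal (Real.exp (-ℓ) * v ^ (-(1 / q))) ≤ cap 0 K := by
        have e : Real.exp (-ℓ) * v ^ (-(1 / q)) = Real.exp (-(ℓ + Real.log v / q)) := by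
          rw [Real.rpow_def_of_pos hv0, ← Real.exp_add]
          congr 1
          ring
        rw [e, hcap, ← EReal.exp_coe, EReal.exp_le_exp_iff, EReal.coe_neg]
        exact EReal.neg_le_neg_iff.2 hVK
      calc cap q K / cap 0 K ≤ ENNReal.ofReal (v ^ (-(1 / q))) /
            ENNReal.ofReal (Real.exp (-ℓ) * v ^ (-(1 / q))) := by
            refine ENNReal.div_le_div ?_ hcapK
            rw [hcaq, hvE, ENNReal.ofReal_rpow_of_pos hv0]
        _ = ENNReal.ofReal (Real.exp ℓ) := by
            rw [← ENNReal.ofReal_div_of_pos (by positivity)]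
            congr 1
            rw [Real.exp_neg]
            have : v ^ (-(1 / q)) ≠ 0 := by positivity
            field_simp

/-- **Existence of maximisers for ratios of Riesz capacities.** For all `n` and `0 ≤ p < q < n`
there is a compact set `K₀ ⊆ ℝⁿ` with `cap_p K₀ > 0` such that
`cap_q K / cap_p K ≤ cap_q K₀ / cap_p K₀` for every compact `K ⊆ ℝⁿ` with `cap_p K > 0`. -/
theorem result (n : ℕ) (p q : ℝ) (hp : 0 ≤ p) (hpq : p < q) (hqn : q < n) :
    ∃ K₀ : Set (EuclideanSpace ℝ (Fin n)), IsCompact K₀ ∧ 0 < cap p K₀ ∧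
      ∀ K : Set (EuclideanSpace ℝ (Fin n)), IsCompact K → 0 < cap p K →
        cap q K / cap p K ≤ cap q K₀ / cap p K₀ := by
  have hq : 0 < q := lt_of_le_of_lt hp hpq
  have hn : n ≠ 0 := by
    rintro rfl
    simp only [Nat.cast_zero] at hqn
    linarith
  have : NeZero n := ⟨hn⟩
  rcases hp.eq_or_lt with h | h
  · subst h
    exact result_zero hq hqn
  · exact result_pos h hpq hqn

end Pool.Agent.Results.MP_ce24da_an.RieszRatioMax
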